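import Pool.Agent.W617.LG.StmI

/-! Laugwitz' problem: normalisation. -/

set_option autoImplicit false
open Topology Filter Set
open scoped ContDiff InnerProductSpace

namespace Pool.Agent.W348.LG

open Pool.Agent.W617.LG

/-- square root of a positive definite operator -/
theorem exists_root {q : ℕ} (T : E q →L[ℝ] E q) (hs : ∀ a b, ⟪T a, b⟫_ℝ = ⟪a, T b⟫_ℝ)
    (hp : ∀ a, a ≠ 0 → 0 < ⟪T a, a⟫_ℝ) :
    ∃ A : E q →L[ℝ] E q, IsUnit A ∧ ∀ a b, ⟪A a, A b⟫_ℝ = ⟪T a, b⟫_ℝ := by
  have hsym : T.toLinearMap.IsSymmetric := fun a b => hs a b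
  have hn : Module.finrank ℝ (E q) = q + 2 := by simp [E]
  let b := hsym.eigenvectorBasis hn
  let ev := hsym.eigenvalues hn
  have hb : ∀ i, T (b i) = ev i • b i := by
    intro i
    have := hsym.apply_eigenvectorBasis hn i
    exact this
  have hev : ∀ i, 0 < ev i := by
    intro i
    have h1 : b i ≠ 0 := b.orthonormal.ne_zero i
    have h2 := hp (b i) h1
    rw [hb i, inner_smul_left, real_inner_self_eq_norm_sq, b.orthonormal.1 i] at h2
    simpa using h2
  let A0 : E q →L[ℝ] E q := ∑ i, (√(ev i)) • (innerSL ℝ (b i)).smulRight (b i)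
  have hA0 : ∀ a, A0 a = ∑ i, (√(ev i) * ⟪b i, a⟫_ℝ) • b i := by
    intro a
    simp only [A0, ContinuousLinearMap.sum_apply, ContinuousLinearMap.smul_apply,
      ContinuousLinearMap.smulRight_apply, innerSL_apply_apply, smul_smul]
  have hAb : ∀ a i, ⟪b i, A0 a⟫_ℝ = √(ev i) * ⟪b i, a⟫_ℝ := by
    intro a i
    rw [hA0, b.orthonormal.inner_right_fintype]
  have hAA : ∀ a c, ⟪A0 a, A0 c⟫_ℝ = ⟪T a, c⟫_ℝ := by
    intro a c
    rw [← b.sum_inner_mul_inner (A0 a) (A0 c), ← b.sum_inner_mul_inner (T a) c]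
    refine Finset.sum_congr rfl fun i _ => ?_
    rw [real_inner_comm (b i) (A0 a), hAb, hAb, hs a (b i), hb i, inner_smul_right,
      real_inner_comm (b i) a]
    have := Real.mul_self_sqrt (hev i).le
    linear_combination (⟪b i, a⟫_ℝ * ⟪b i, c⟫_ℝ) * this
  refine ⟨A0, ?_, hAA⟩
  have hinj : Function.Injective A0.toLinearMap := by
    rw [← LinearMap.ker_eq_bot, LinearMap.ker_eq_bot']
    intro a ha
    by_contra h0
    have h1 := hp a h0
    rw [← hAA a a] at h1
    have h2 : A0 a = 0 := ha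
    rw [h2, inner_zero_left] at h1
    exact lt_irrefl _ h1
  have hsurj := LinearMap.injective_iff_surjective.1 hinj
  let e := (LinearEquiv.ofBijective A0.toLinearMap ⟨hinj, hsurj⟩).toContinuousLinearEquiv
  have he : (e : E q →L[ℝ] E q) = A0 := by
    ext1 x
    rfl
  rw [← he]
  exact ⟨e.toUnit, rfl⟩

theorem t_ISO : S_ISO := by
  intro q G M N hd nf
  -- the inverse
  let P : E q → (E q →L[ℝ] E q) := fun y => Ring.inverse (N 1 y)
  have hPN : ∀ y, y ≠ 0 → P y * N 1 y = 1 := fun y hy => Ring.inverse_mul_cancel _ (nf.unit 1 y hy)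
  have hNP : ∀ y, y ≠ 0 → N 1 y * P y = 1 := fun y hy => Ring.mul_inverse_cancel _ (nf.unit 1 y hy)
  have hPd : ∀ y, y ≠ 0 → ∃ D : E q →L[ℝ] (E q →L[ℝ] E q), HasFDerivAt P D y ∧
      ∀ v, D v = -(M y v * P y) := by
    intro y hy
    obtain ⟨u, hu⟩ := nf.unit 1 y hy
    have h1 := nf.der 1 y hy
    have h2 := hasFDerivAt_ringInverse (𝕜 := ℝ) (R := E q →L[ℝ] E q) u
    rw [hu] at h2
    have hui : ((u⁻¹ : (E q →L[ℝ] E q)ˣ) : E q →L[ℝ] E q) = P y := by
      simp only [P, ← hu, Ring.inverse_unit]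
    refine ⟨_, h2.comp y h1, ?_⟩
    intro v
    have h3 : P y * (N 1 y * M y v) * P y = M y v * P y := by
      rw [← mul_assoc (P y), hPN y hy, one_mul]
    rw [← h3, hui, one_smul]
    rfl
  have hpa : ∀ a y, y ≠ 0 → DifferentiableAt ℝ (fun y => P y a) y ∧
      ∀ v, fderiv ℝ (fun y => P y a) y v = -(M y v (P y a)) := by
    intro a y hy
    obtain ⟨D, hD, hDv⟩ := hPd y hy
    have h1 : DifferentiableAt ℝ (fun y => P y a) y := hD.differentiableAt.clm_apply
      (differentiableAt_const a)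
    refine ⟨h1, fun v => ?_⟩
    rw [fderiv_clm_apply hD.differentiableAt (differentiableAt_const a), hD.fderiv]
    simp only [fderiv_fun_const, Pi.zero_apply, ContinuousLinearMap.comp_zero, zero_add,
      ContinuousLinearMap.flip_apply]
    rw [hDv v]
    rfl
  have hGd : ∀ y, y ≠ 0 → DifferentiableAt ℝ G y := fun y hy =>
    (hd.Gsm y hy).differentiableAt (by simp)
  -- symmetry of `G M`
  have hGM : ∀ y, y ≠ 0 → ∀ v p r, ⟪G y (M y v p), r⟫_ℝ = ⟪G y p, M y v r⟫_ℝ := by
    intro y hy v p r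
    have e1 : ∀ p r : E q, fderiv ℝ (fun z => ⟪G z p, r⟫_ℝ) y v = 2 * ⟪G y (M y v p), r⟫_ℝ := by
      intro p r
      have h1 : DifferentiableAt ℝ (fun z => G z p) y :=
        (hGd y hy).clm_apply (differentiableAt_const p)
      rw [fderiv_inner_apply ℝ h1 (differentiableAt_const r),
        fderiv_clm_apply (hGd y hy) (differentiableAt_const p)]
      simp only [fderiv_fun_const, Pi.zero_apply, ContinuousLinearMap.comp_zero, zero_add,
        ContinuousLinearMap.flip_apply, ContinuousLinearMap.zero_apply, inner_zero_right]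
      rw [hd.dG y hy v]
      simp only [ContinuousLinearMap.smul_apply, ContinuousLinearMap.comp_apply]
      rw [inner_smul_left]
      simp
    have h2 : fderiv ℝ (fun z => ⟪G z p, r⟫_ℝ) y = fderiv ℝ (fun z => ⟪G z r, p⟫_ℝ) y := by
      apply Filter.EventuallyEq.fderiv_eq
      filter_upwards [isOpen_ne.mem_nhds hy] with z hz
      exact hd.Gsymm z hz p r
    have h3 := congrArg (fun L => L v) h2
    rw [e1 p r, e1 r p, hd.Gsymm y hy (M y v r) p] at h3
    linarith
  -- the form is constant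
  have hconn : IsPreconnected ({(0 : E q)}ᶜ : Set (E q)) := by
    refine (isConnected_compl_singleton_of_one_lt_rank ?_ 0).isPreconnected
    have h1 : Module.rank ℝ (E q) = ((q + 2 : ℕ) : Cardinal) := by
      rw [← Module.finrank_eq_rank]
      simp [E]
    rw [h1]
    exact_mod_cast (by omega : 1 < q + 2)
  have hconst : ∀ a b y y', y ≠ 0 → y' ≠ 0 →
      ⟪G y (P y a), P y b⟫_ℝ = ⟪G y' (P y' a), P y' b⟫_ℝ := by
    intro a b y y' hy hy'
    refine isOpen_compl_singleton.is_const_of_fderiv_eq_zero (𝕜 := ℝ)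
      (f := fun y => ⟪G y (P y a), P y b⟫_ℝ) hconn ?_ ?_ hy hy'
    · intro z hz
      exact (((hGd z hz).clm_apply (hpa a z hz).1).inner ℝ (hpa b z hz).1).differentiableWithinAt
    · intro z hz
      have hz' : z ≠ 0 := hz
      ext v
      rw [fderiv_inner_apply ℝ ((hGd z hz).clm_apply (hpa a z hz).1) (hpa b z hz).1,
        fderiv_clm_apply (hGd z hz) (hpa a z hz).1]
      simp only [ContinuousLinearMap.add_apply, ContinuousLinearMap.comp_apply,
        ContinuousLinearMap.flip_apply, Pi.zero_apply, ContinuousLinearMap.zero_apply]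
      rw [(hpa a z hz).2 v, (hpa b z hz).2 v, hd.dG z hz v]
      simp only [ContinuousLinearMap.smul_apply, ContinuousLinearMap.comp_apply, map_neg,
        inner_neg_right, inner_add_left, inner_neg_left, inner_smul_left]
      have := hGM z hz v (P z a) (P z b)
      simp only [conj_trivial]
      linarith
  -- a base point
  obtain ⟨y0, hy0⟩ : ∃ y : E q, y ≠ 0 := exists_ne 0
  let T : E q →L[ℝ] E q := (ContinuousLinearMap.adjoint (P y0)).comp ((G y0).comp (P y0))
  have hT : ∀ a b, ⟪T a, b⟫_ℝ = ⟪G y0 (P y0 a), P y0 b⟫_ℝ := by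
    intro a b
    simp only [T, ContinuousLinearMap.comp_apply]
    rw [ContinuousLinearMap.adjoint_inner_left]
  have hPinj : ∀ a, P y0 a = 0 → a = 0 := by
    intro a ha
    have h1 : (N 1 y0 * P y0) a = 0 := by
      rw [ContinuousLinearMap.mul_apply, ha, map_zero]
    rw [hNP y0 hy0] at h1
    exact h1
  obtain ⟨A, hA, hAA⟩ := exists_root T (fun a b => by
      rw [hT, real_inner_comm (T b) a, hT, hd.Gsymm y0 hy0]) (fun a ha => by
      rw [hT]
      exact hd.Gpos y0 hy0 _ fun h => ha (hPinj a h))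
  refine ⟨A, hA, fun y hy a b => ?_⟩
  rw [hAA, hT, hconst _ _ y0 y hy0 hy]
  have h1 : ∀ a, P y (N 1 y a) = a := by
    intro a
    have : (P y * N 1 y) a = a := by rw [hPN y hy]; rfl
    exact this
  rw [h1, h1]

end Pool.Agent.W348.LG
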