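import Pool.Agent.W617.LG.StmIV

/-! Laugwitz' problem: the global flow on good frames. -/

set_option autoImplicit false
open Topology Filter Set MeasureTheory
open scoped ContDiff InnerProductSpace

namespace Pool.Agent.W348.LG

open Pool.Agent.W617.LG

theorem exists_low {q : ℕ} (f : Fin q → ℝ) (hf : ∀ l, 0 < f l) : ∃ δ > 0, ∀ l, δ ≤ f l := by
  rcases isEmpty_or_nonempty (Fin q) with h | h
  · exact ⟨1, one_pos, fun l => (h.false l).elim⟩
  · obtain ⟨l0, hl0⟩ := Finite.exists_min f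
    exact ⟨f l0, hf l0, hl0⟩

theorem GA_low {q : ℕ} (C : TF q) {z : FB q} (hz : z ∈ GA C) : ∃ δ > 0, z ∈ Kd C δ := by
  obtain ⟨δ, h1, h2⟩ := exists_low (fun l => lam C z.1 (z.2 l.succ)) hz.1.pos
  exact ⟨δ, h1, hz, h2⟩

theorem GA_Om {q : ℕ} (C : TF q) {z : FB q} (hz : z ∈ GA C) : z ∈ Om C :=
  ⟨hz.1.x0, hz.1.pos⟩

theorem uniq (hU : S_UNQ) (hS : S_SMX) {q : ℕ} {C : TF q} {τ : E q → ℝ} (h : LW q C τ)
    {T : ℝ} {γ δ : ℝ → FB q}
    (h1 : ∀ t, |t| < T → γ t ∈ GA C ∧ HasDerivAt γ (XF C (γ t)) t)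
    (h2 : ∀ t, |t| < T → δ t ∈ GA C ∧ HasDerivAt δ (XF C (δ t)) t)
    (h0 : γ 0 = δ 0) (t : ℝ) (ht : |t| < T) : γ t = δ t := by
  obtain ⟨s1, _, s3⟩ := hS q C τ h
  have hT : 0 < T := lt_of_le_of_lt (abs_nonneg t) ht
  refine hU q (XF C) (Om C) s1 s3 (-T) T 0 γ δ ⟨by linarith, hT⟩ ?_ ?_ h0 t (abs_lt.1 ht)
  · intro t ht
    have := h1 t (abs_lt.2 ht)
    exact ⟨GA_Om C this.1, this.2⟩
  · intro t ht
    have := h2 t (abs_lt.2 ht)
    exact ⟨GA_Om C this.1, this.2⟩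

theorem t_FL (hF : S_FLT) (hU : S_UNQ) (hS : S_SMX) : S_FL := by
  intro q C τ h
  classical
  have hF' : ∀ δ : ℝ, ∀ T : ℝ, ∃ G : ℝ → FB q → FB q, 0 < δ → 0 < T →
      ContDiff ℝ ∞ (fun p : ℝ × FB q => G p.1 p.2) ∧
      ∀ z ∈ Kd C δ, G 0 z = z ∧ ∀ s, |s| ≤ T → G s z ∈ GA C ∧ ‖(G s z).1‖ = ‖z.1‖ ∧
        HasDerivAt (fun s => G s z) (XF C (G s z)) s := by
    intro δ T
    by_cases hc : 0 < δ ∧ 0 < T
    · obtain ⟨G, hG⟩ := hF q C τ h δ hc.1 T hc.2
      exact ⟨G, fun _ _ => hG⟩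
    · exact ⟨fun _ z => z, fun a b => absurd ⟨a, b⟩ hc⟩
  choose G hG using hF'
  let dl : FB q → ℝ := fun z => if hz : z ∈ GA C then (GA_low C hz).choose else 1
  have hdl : ∀ z ∈ GA C, 0 < dl z ∧ z ∈ Kd C (dl z) := by
    intro z hz
    simp only [dl, dif_pos hz]
    exact (GA_low C hz).choose_spec
  let φ : ℝ → FB q → FB q := fun s z => G (dl z) (|s| + 1) s z
  have hKG : ∀ δ z, z ∈ Kd C δ → z ∈ GA C := fun δ z hz => hz.1
  have cons : ∀ δ T z s, 0 < δ → z ∈ Kd C δ → |s| < T → φ s z = G δ T s z := by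
    intro δ T z s hδ hz hs
    have hT : 0 < T := lt_of_le_of_lt (abs_nonneg s) hs
    obtain ⟨d1, d2⟩ := hdl z (hKG δ z hz)
    have hs1 : 0 < |s| + 1 := by positivity
    have g1 := (hG (dl z) (|s| + 1) d1 hs1).2 z d2
    have g2 := (hG δ T hδ hT).2 z hz
    refine uniq hU hS h (T := min (|s| + 1) T) (γ := fun t => G (dl z) (|s| + 1) t z)
      (δ := fun t => G δ T t z) ?_ ?_ ?_ s (lt_min (by linarith) hs)
    · intro t ht
      have := g1.2 t (ht.le.trans (min_le_left _ _))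
      exact ⟨this.1, this.2.2⟩
    · intro t ht
      have := g2.2 t (ht.le.trans (min_le_right _ _))
      exact ⟨this.1, this.2.2⟩
    · change G (dl z) (|s| + 1) 0 z = G δ T 0 z
      rw [g1.1, g2.1]
  have hzero : ∀ z ∈ GA C, φ 0 z = z := by
    intro z hz
    obtain ⟨d1, d2⟩ := hdl z hz
    exact ((hG (dl z) (|(0 : ℝ)| + 1) d1 (by positivity)).2 z d2).1
  have hmn : ∀ z ∈ GA C, ∀ s, φ s z ∈ GA C ∧ ‖(φ s z).1‖ = ‖z.1‖ := by
    intro z hz s
    obtain ⟨d1, d2⟩ := hdl z hz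
    have := ((hG (dl z) (|s| + 1) d1 (by positivity)).2 z d2).2 s (by linarith)
    exact ⟨this.1, this.2.1⟩
  have hder : ∀ z ∈ GA C, ∀ s, HasDerivAt (fun s => φ s z) (XF C (φ s z)) s := by
    intro z hz s
    obtain ⟨d1, d2⟩ := hdl z hz
    have hT : |s| < |s| + 2 := by linarith
    have h1 := (((hG (dl z) (|s| + 2) d1 (by positivity)).2 z d2).2 s hT.le).2.2
    rw [cons (dl z) (|s| + 2) z s d1 d2 hT]
    refine h1.congr_of_eventuallyEq ?_
    have h2 : ∀ᶠ t in 𝓝 s, |t| < |s| + 2 :=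
      (continuous_abs.tendsto s).eventually (gt_mem_nhds hT)
    filter_upwards [h2] with t ht
    exact cons (dl z) (|s| + 2) z t d1 d2 ht
  refine ⟨φ, hzero, fun z hz s => (hmn z hz s).1, fun z hz s => (hmn z hz s).2, hder, ?_, ?_⟩
  · intro z hz s t
    have hw := (hmn z hz t).1
    refine uniq hU hS h (T := |s| + 1) (γ := fun s => φ (s + t) z) (δ := fun s => φ s (φ t z))
      ?_ ?_ ?_ s (by linarith)
    · intro r _
      refine ⟨(hmn z hz (r + t)).1, ?_⟩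
      have := (hder z hz (r + t)).comp_add_const r t
      exact this
    · intro r _
      exact ⟨(hmn _ hw r).1, hder _ hw r⟩
    · change φ (0 + t) z = φ 0 (φ t z)
      rw [zero_add, hzero _ hw]
  · intro x₀ e hx1 hx2 he hGF s
    have hx0 : x₀ ≠ 0 := by
      rintro rfl
      rw [norm_zero] at hx1
      linarith
    have hGF0 := hGF.self_of_nhds
    obtain ⟨δ, hδ, hδl⟩ := exists_low (fun l => lam C x₀ (e x₀ l.succ)) hGF0.pos
    have hCc : ContinuousAt C x₀ := (h.smooth x₀ hx0).continuousAt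
    have hec : ContinuousAt e x₀ := he.continuousAt
    have hl : ∀ l : Fin q, ∀ᶠ x in 𝓝 x₀, δ / 2 ≤ lam C x (e x l.succ) := by
      intro l
      have h1 : ContinuousAt (fun x => e x l.succ) x₀ :=
        (continuous_apply l.succ).continuousAt.comp hec
      have h2 : ContinuousAt (fun x => lam C x (e x l.succ)) x₀ := by
        unfold lam
        exact ((hCc.clm_apply h1).clm_apply h1).inner h1
      have h3 : δ / 2 < lam C x₀ (e x₀ l.succ) := by
        have := hδl l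
        linarith
      filter_upwards [h2.eventually (lt_mem_nhds h3)] with x hx
      exact hx.le
    have hn1 : ∀ᶠ x : E q in 𝓝 x₀, 1 < ‖x‖ := (continuous_norm.tendsto x₀).eventually
      (lt_mem_nhds hx1)
    have hn2 : ∀ᶠ x : E q in 𝓝 x₀, ‖x‖ < 2 := (continuous_norm.tendsto x₀).eventually
      (gt_mem_nhds hx2)
    have hK : ∀ᶠ x in 𝓝 x₀, (x, e x) ∈ Kd C (δ / 2) := by
      filter_upwards [hGF, hn1, hn2, eventually_all.2 hl] with x a1 a2 a3 a4
      exact ⟨⟨a1, a2.le, a3.le⟩, a4⟩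
    have hδ2 : 0 < δ / 2 := by positivity
    have hsm := (hG (δ / 2) (|s| + 1) hδ2 (by positivity)).1
    have hev : (fun p : ℝ × E q => φ p.1 (p.2, e p.2)) =ᶠ[𝓝 (s, x₀)]
        (fun p : ℝ × E q => G (δ / 2) (|s| + 1) p.1 (p.2, e p.2)) := by
      have h1 : ∀ᶠ p : ℝ × E q in 𝓝 (s, x₀), |p.1| < |s| + 1 := by
        have : Continuous (fun p : ℝ × E q => |p.1|) := continuous_fst.abs
        exact (this.tendsto (s, x₀)).eventually (gt_mem_nhds (by simp))
      have h2 : ∀ᶠ p : ℝ × E q in 𝓝 (s, x₀), (p.2, e p.2) ∈ Kd C (δ / 2) :=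
        (continuous_snd.tendsto (s, x₀)).eventually hK
      filter_upwards [h1, h2] with p p1 p2
      exact cons (δ / 2) (|s| + 1) _ p.1 hδ2 p2 p1
    refine ContDiffAt.congr_of_eventuallyEq ?_ hev
    have h3 : ContDiffAt ℝ ∞ (fun p : ℝ × E q => (p.1, (p.2, e p.2))) (s, x₀) := by
      have h4 : ContDiffAt ℝ ∞ (fun p : ℝ × E q => e p.2) (s, x₀) :=
        ContDiffAt.comp (s, x₀) (f := fun p : ℝ × E q => p.2) (g := e) he contDiffAt_snd
      exact contDiffAt_fst.prodMk (contDiffAt_snd.prodMk h4)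
    exact hsm.contDiffAt.comp (s, x₀) h3

end Pool.Agent.W348.LG
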